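import Pool.Agent.Helper76.TH7.StC7

/-!
# Project TH (level `2 * 7^n`), module DIMOH7: dimension of subOH (odd exponents)
-/

set_option autoImplicit false

namespace Pool.Agent.Helper7.TH7

open Pool.Agent.Helper76.TH7 Pool.Agent.Helper76.S7 Pool.Agent.Helper93.TLH

section lin

variable {W W' : Type} [AddCommGroup W] [Module ℂ W] [FiniteDimensional ℂ W] [AddCommGroup W']
  [Module ℂ W']

private theorem rn (f : W →ₗ[ℂ] W') (V : Submodule ℂ W) :
    Module.finrank ℂ (V.map f) + Module.finrank ℂ ↥(V ⊓ LinearMap.ker f) =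
      Module.finrank ℂ V := by
  have h := LinearMap.finrank_range_add_finrank_ker (f.domRestrict V)
  rw [LinearMap.range_domRestrict, LinearMap.ker_domRestrict] at h
  have h2 : Module.finrank ℂ ↥((LinearMap.ker f).comap V.subtype) =
      Module.finrank ℂ ↥(V ⊓ LinearMap.ker f) := by
    rw [← Submodule.map_comap_subtype, Submodule.finrank_map_subtype_eq]
  rw [h2] at h
  exact h

end lin

section lin2

variable {W W' : Type} [AddCommGroup W] [Module ℂ W] [FiniteDimensional ℂ W] [AddCommGroup W']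
  [Module ℂ W'] [FiniteDimensional ℂ W']

private theorem fr_prod (V : Submodule ℂ W) (V' : Submodule ℂ W') :
    Module.finrank ℂ ↥(V.prod V') = Module.finrank ℂ V + Module.finrank ℂ V' := by
  have h1 : V.prod V' = LinearMap.range (V.subtype.prodMap V'.subtype) := by
    rw [LinearMap.range_prodMap, Submodule.range_subtype, Submodule.range_subtype]
  rw [h1, LinearMap.finrank_range_of_inj, Module.finrank_prod]
  rintro ⟨a, b⟩ ⟨a', b'⟩ h
  simp only [LinearMap.prodMap_apply, Submodule.subtype_apply, Prod.mk.injEq,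
    SetLike.coe_eq_coe] at h
  rw [h.1, h.2]

end lin2

private theorem pw0 {m : ℕ} (hm : 1 ≤ m) : (7 : ZMod (7 ^ m)) * 7 ^ (m - 1) = 0 := by
  rw [← pow_succ', Nat.sub_add_cancel hm]
  have h3 := ZMod.natCast_self (7 ^ m)
  push_cast at h3
  exact h3

private theorem red {m : ℕ} (hm : 1 ≤ m) (t : ℤ) :
    (t : ZMod (7 ^ m)) * 7 ^ (m - 1) = ((t : ZMod 7).val : ZMod (7 ^ m)) * 7 ^ (m - 1) := by
  have h1 : ((t : ZMod 7).val : ℤ) = t % 7 := by
    rw [ZMod.val_intCast]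
    norm_num
  have h2 : (((t : ZMod 7).val : ℕ) : ZMod (7 ^ m)) = ((t % 7 : ℤ) : ZMod (7 ^ m)) := by
    rw [← h1]
    push_cast
    rfl
  rw [h2]
  have h3 : t = t % 7 + 7 * (t / 7) := (Int.emod_add_mul_ediv t 7).symm
  have h4 : (t : ZMod (7 ^ m)) = ((t % 7 : ℤ) : ZMod (7 ^ m)) + 7 * ((t / 7 : ℤ) : ZMod (7 ^ m)) := by
    conv_lhs => rw [h3]
    push_cast
    ring
  rw [h4]
  linear_combination ((t / 7 : ℤ) : ZMod (7 ^ m)) * pw0 hm

private theorem sum_zmod (g : ℕ → ℂ) :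
    ∑ i ∈ Finset.range 7, g i = ∑ z : ZMod 7, g z.val := by
  have : ∀ h : ZMod 7 → ℂ, ∑ z : ZMod 7, h z = ∑ i : Fin 7, h i := fun h => rfl
  rw [Finset.sum_range, this]
  rfl

private theorem sum_s {m : ℕ} (hm : 1 ≤ m) (s : ℤ) (hs : ¬ (7 : ℤ) ∣ s)
    (g : ZMod (7 ^ m) → ℂ) :
    ∑ i ∈ Finset.range 7, g (s * ((i : ZMod (7 ^ m)) * 7 ^ (m - 1))) =
      ∑ i ∈ Finset.range 7, g ((i : ZMod (7 ^ m)) * 7 ^ (m - 1)) := by
  have hf : Fact (Nat.Prime 7) := ⟨by norm_num⟩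
  have hs0 : (s : ZMod 7) ≠ 0 := by
    intro h
    exact hs ((ZMod.intCast_zmod_eq_zero_iff_dvd s 7).1 h)
  rw [sum_zmod (fun i => g (s * ((i : ZMod (7 ^ m)) * 7 ^ (m - 1)))),
    sum_zmod (fun i => g ((i : ZMod (7 ^ m)) * 7 ^ (m - 1)))]
  refine Fintype.sum_equiv (Equiv.mulLeft₀ (s : ZMod 7) hs0) _ _ fun z => ?_
  have h1 := red hm (s * (z.val : ℤ))
  have h2 : ((s * (z.val : ℤ) : ℤ) : ZMod 7) = (s : ZMod 7) * z := by
    push_cast
    rw [ZMod.natCast_zmod_val]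
  rw [h2] at h1
  change g (s * ((z.val : ZMod (7 ^ m)) * 7 ^ (m - 1))) =
    g ((((s : ZMod 7) * z).val : ZMod (7 ^ m)) * 7 ^ (m - 1))
  rw [← h1]
  congr 1
  push_cast
  ring

private theorem anti_s {m : ℕ} (hm : 1 ≤ m) {F : Pt m → ℂ} (hF : F ∈ anti7 m) (s : ℤ)
    (hs : ¬ (7 : ℤ) ∣ s) (x y : ZMod (7 ^ m)) :
    ∑ i ∈ Finset.range 7, F (x + s * (i * 7 ^ (m - 1)), y) = 0 ∧
      ∑ i ∈ Finset.range 7, F (x, y + s * (i * 7 ^ (m - 1))) = 0 := by
  obtain ⟨h1, h2⟩ := hF (x, y)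
  constructor
  · rw [sum_s hm s hs (fun t => F (x + t, y))]
    exact h1
  · rw [sum_s hm s hs (fun t => F (x, y + t))]
    exact h2

private theorem dv_step {m : ℕ} (hm : 1 ≤ m) {s : ℤ} {φ : ZMod (7 ^ m) → ZMod (7 ^ m)}
    (h : Dv s φ) (x : ZMod (7 ^ m)) (i : ℕ) :
    φ (x + i * 7 ^ (m - 1)) = φ x + s * (i * 7 ^ (m - 1)) := by
  have h1 := h (m - 1) (x + i * 7 ^ (m - 1)) x ⟨i, by ring⟩
  have h2 : (7 : ZMod (7 ^ m)) ^ (m - 1 + 1) = 0 := by
    rw [Nat.sub_add_cancel hm]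
    have h3 := ZMod.natCast_self (7 ^ m)
    push_cast at h3
    exact h3
  rw [h2, zero_dvd_iff] at h1
  linear_combination h1

private theorem anti_comp {m n : ℕ} (hm : 1 ≤ m) {r : Pt m → Pt m} (hr : Ty n r) {F : Pt m → ℂ}
    (hF : F ∈ anti7 m) : (fun p => F (r p)) ∈ anti7 m := by
  rcases hr with ⟨_, s, s', φ, φ', hs, _, hs', _, hφ, hφ', hr⟩ | ⟨_, s, s', ψ, ψ', hs, hs', hψ, hψ', hr⟩
  · intro p
    simp only [hr, dv_step hm hφ, dv_step hm hφ']
    exact ⟨(anti_s hm hF s hs (φ p.1) (φ' p.2)).1, (anti_s hm hF s' hs' (φ p.1) (φ' p.2)).2⟩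
  · intro p
    simp only [hr, dv_step hm hψ, dv_step hm hψ']
    exact ⟨(anti_s hm hF s' hs' (ψ p.2) (ψ' p.1)).2, (anti_s hm hF s hs (ψ p.2) (ψ' p.1)).1⟩

/-- `F + F∘r` -/
private def T {m : ℕ} (r : Pt m → Pt m) : (Pt m → ℂ) →ₗ[ℂ] (Pt m → ℂ) where
  toFun F p := F p + F (r p)
  map_add' F F' := by funext p; simp only [Pi.add_apply]; ring
  map_smul' c F := by funext p; simp only [Pi.smul_apply, smul_eq_mul, RingHom.id_apply]; ring

private theorem T_apply {m : ℕ} (r : Pt m → Pt m) (F : Pt m → ℂ) (p : Pt m) :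
    T r F p = F p + F (r p) := rfl

/-- the dimension of the anti-invariant functions of `s` -/
private theorem dim_anti {m : ℕ} (hm : 1 ≤ m) {r s : Pt m → Pt m} (hk : Kl r s) {n : ℕ}
    (hr : Ty n r) :
    Module.finrank ℂ (inv7 (m := m) r s 1 (-1)) + Module.finrank ℂ (inv7 (m := m) r s (-1) (-1)) =
      Module.finrank ℂ (inv1 (m := m) s (-1)) := by
  obtain ⟨k1, k2, k3⟩ := hk
  have h := rn (T r) (inv1 (m := m) s (-1))
  have hmap : (inv1 (m := m) s (-1)).map (T r) = inv7 (m := m) r s 1 (-1) := by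
    apply le_antisymm
    · rintro _ ⟨F, ⟨hF0, hF⟩, rfl⟩
      refine ⟨?_, fun p => ⟨?_, ?_⟩⟩
      · have e : T r F = F + (fun p => F (r p)) := rfl
        rw [e]
        exact Submodule.add_mem _ hF0 (anti_comp hm hr hF0)
      · rw [T_apply, T_apply, k1 p]
        ring
      · rw [T_apply, T_apply, k3 p, hF p, hF (r p)]
        ring
    · rintro φ ⟨hφ0, hφ⟩
      refine ⟨(2 : ℂ)⁻¹ • φ, ⟨Submodule.smul_mem _ _ hφ0, fun p => ?_⟩, ?_⟩
      · rw [Pi.smul_apply, Pi.smul_apply, (hφ p).2, smul_eq_mul, smul_eq_mul]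
        ring
      · funext p
        rw [T_apply, Pi.smul_apply, Pi.smul_apply, (hφ p).1, smul_eq_mul, smul_eq_mul]
        ring
  have hker : inv1 (m := m) s (-1) ⊓ LinearMap.ker (T r) = inv7 (m := m) r s (-1) (-1) := by
    ext F
    constructor
    · rintro ⟨⟨h1, h2⟩, h3⟩
      rw [SetLike.mem_coe, LinearMap.mem_ker] at h3
      refine ⟨h1, fun p => ⟨?_, h2 p⟩⟩
      have h4 := congrFun h3 p
      rw [T_apply, Pi.zero_apply] at h4
      linear_combination h4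
    · rintro ⟨h1, h2⟩
      refine ⟨⟨h1, fun p => (h2 p).2⟩, ?_⟩
      rw [SetLike.mem_coe, LinearMap.mem_ker]
      funext p
      rw [T_apply, Pi.zero_apply, (h2 p).1]
      ring
  rw [hmap, hker] at h
  exact h

/-- the components of the map -/
private def K1 {m : ℕ} (r s : Pt m → Pt m) :
    (((Pt m → ℂ) × (Pt m → ℂ)) × (Pt m → ℂ)) →ₗ[ℂ] (Pt m → ℂ) where
  toFun F p := F.2 p + F.2 (r p) + F.1.1 (s p) - F.1.1 p
  map_add' F F' := by funext p; simp only [Prod.fst_add, Prod.snd_add, Pi.add_apply]; ring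
  map_smul' c F := by
    funext p
    simp only [Prod.smul_fst, Prod.smul_snd, Pi.smul_apply, smul_eq_mul, RingHom.id_apply]
    ring

private def K2 {m : ℕ} (r s : Pt m → Pt m) :
    (((Pt m → ℂ) × (Pt m → ℂ)) × (Pt m → ℂ)) →ₗ[ℂ] (Pt m → ℂ) where
  toFun F p := F.2 p + F.2 (r p) + F.1.2 (s p) - F.1.2 p
  map_add' F F' := by funext p; simp only [Prod.fst_add, Prod.snd_add, Pi.add_apply]; ring
  map_smul' c F := by
    funext p
    simp only [Prod.smul_fst, Prod.smul_snd, Pi.smul_apply, smul_eq_mul, RingHom.id_apply]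
    ring

private theorem K1_apply {m : ℕ} (r s : Pt m → Pt m)
    (F : ((Pt m → ℂ) × (Pt m → ℂ)) × (Pt m → ℂ)) (p : Pt m) :
    K1 r s F p = F.2 p + F.2 (r p) + F.1.1 (s p) - F.1.1 p := rfl

private theorem K2_apply {m : ℕ} (r s : Pt m → Pt m)
    (F : ((Pt m → ℂ) × (Pt m → ℂ)) × (Pt m → ℂ)) (p : Pt m) :
    K2 r s F p = F.2 p + F.2 (r p) + F.1.2 (s p) - F.1.2 p := rfl

/-- the values are in `inv7 r s 1 (-1)` -/
private theorem val_mem {m n n' : ℕ} (hm : 1 ≤ m) {r s : Pt m → Pt m} (hk : Kl r s) (hr : Ty n r)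
    (hs : Ty n' s) {e f : Pt m → ℂ} (he : e ∈ inv1 (m := m) s (-1)) (hf0 : f ∈ anti7 m)
    (hf : ∀ p, f (r p) = f p) :
    (fun p => e p + e (r p) + f (s p) - f p) ∈ inv7 (m := m) r s 1 (-1) := by
  obtain ⟨k1, k2, k3⟩ := hk
  obtain ⟨he0, he1⟩ := he
  refine ⟨?_, fun p => ⟨?_, ?_⟩⟩
  · have e4 : (fun p => e p + e (r p) + f (s p) - f p) = e + (fun p => e (r p)) +
        (fun p => f (s p)) - f := by
      funext p
      simp only [Pi.add_apply, Pi.sub_apply]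
    rw [e4]
    exact Submodule.sub_mem _ (Submodule.add_mem _ (Submodule.add_mem _ he0
      (anti_comp hm hr he0)) (anti_comp hm hs hf0)) hf0
  · simp only
    rw [k1 p, ← k3 p, hf (s p), hf p]
    ring
  · simp only
    rw [k2 p, k3 p, he1 p, he1 (r p)]
    ring

/-- **Module DIMOH7.** -/
theorem hDimOH7 : StHDimO7 := by
  intro ht hk hs m hm
  obtain ⟨⟨a1, a2, a3, a4⟩, ⟨b1, b2, b3, b4⟩, -, ⟨c1, c2, c3, c4, c5, c6⟩, -, -, -, -, -⟩ := ht m
  obtain ⟨-, -, q3, -⟩ := hk m hm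
  have eF := q3 ng swH 0 1 1 1 1 a1 a2 a3 a4 (Or.inl rfl) (Or.inl rfl)
  have eL := q3 (dR 0) cOH 0 1 1 1 1 b1 b2 b3 b4 (Or.inl rfl) (Or.inl rfl)
  have eB := q3 swH sOH 1 0 1 1 (-1) c1 a3 c4 c5 (Or.inl rfl) (Or.inr rfl)
  have eB' := q3 swH sOH 1 0 1 (-1) (-1) c1 a3 c4 c5 (Or.inr rfl) (Or.inr rfl)
  have eC := q3 cOH sOH 1 0 1 1 (-1) c2 b3 c4 c6 (Or.inl rfl) (Or.inr rfl)
  have eE := dim_anti (m := m) hm c1 a3
  have n1 : (((-1 : ℤ) : ℂ)) = -1 := by push_cast; rfl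
  have p1 : (((1 : ℤ) : ℂ)) = 1 := by push_cast; rfl
  rw [p1] at eF eL
  rw [n1] at eB'
  rw [n1, p1] at eB eC
  set Vf := inv7 (m := m) ng swH 1 1 with hVf
  set Vl := inv7 (m := m) (dR 0) cOH 1 1 with hVl
  set VB := inv7 (m := m) swH sOH 1 (-1) with hVB
  set VC := inv7 (m := m) cOH sOH 1 (-1) with hVC
  set Ve := inv1 (m := m) sOH (-1) with hVe
  set Q : (((Pt m → ℂ) × (Pt m → ℂ)) × (Pt m → ℂ)) →ₗ[ℂ] ((Pt m → ℂ) × (Pt m → ℂ)) :=
    LinearMap.prod (K1 swH sOH) (K2 cOH sOH) with hQ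
  have hQa : ∀ F, Q F = (K1 swH sOH F, K2 cOH sOH F) := fun _ => rfl
  have hmap : ((Vf.prod Vl).prod Ve).map Q = VB.prod VC := by
    apply le_antisymm
    · rintro _ ⟨F, hF, rfl⟩
      obtain ⟨⟨hF1, hF2⟩, hF3⟩ := hF
      rw [hQa]
      refine ⟨?_, ?_⟩
      · exact val_mem hm c1 a3 c4 hF3 hF1.1 (fun p => by rw [(hF1.2 p).2, one_mul])
      · exact val_mem hm c2 b3 c4 hF3 hF2.1 (fun p => by rw [(hF2.2 p).2, one_mul])
    · rintro ⟨φ, ψ⟩ ⟨hφ, hψ⟩
      simp only at hφ hψ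
      obtain ⟨f0, hf0, l0, hl0, hfn0, hld0, hfl0⟩ :=
        hs 0 m hm ((4 : ℂ)⁻¹ • φ) (Submodule.smul_mem _ _ hφ.1)
      obtain ⟨f1, hf1, l1, hl1, hfn1, hld1, hfl1⟩ :=
        hs 0 m hm ((4 : ℂ)⁻¹ • ψ) (Submodule.smul_mem _ _ hψ.1)
      have s0 := anti_comp hm a3 hf0
      have s1 := anti_comp hm a3 hf1
      have t0 := anti_comp hm b3 hl0
      have t1 := anti_comp hm b3 hl1
      have hu : l0 + f1 ∈ anti7 m := Submodule.add_mem _ hl0 hf1
      refine ⟨((((f1 + fun p => f1 (swH p)) - (f0 + fun p => f0 (swH p))),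
        ((l0 + fun p => l0 (cOH p)) - (l1 + fun p => l1 (cOH p)))),
        (l0 + f1) - fun p => (l0 + f1) (sOH p)), ⟨⟨⟨?_, fun p => ⟨?_, ?_⟩⟩, ⟨?_, fun p => ⟨?_, ?_⟩⟩⟩,
        ⟨?_, fun p => ?_⟩⟩, ?_⟩
      · exact Submodule.sub_mem _ (Submodule.add_mem _ hf1 s1) (Submodule.add_mem _ hf0 s0)
      · simp only [Pi.sub_apply, Pi.add_apply]
        rw [← a1.2.2 p, hfn0 p, hfn1 p, hfn0 (swH p), hfn1 (swH p)]
        ring
      · simp only [Pi.sub_apply, Pi.add_apply]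
        rw [a1.2.1 p]
        ring
      · exact Submodule.sub_mem _ (Submodule.add_mem _ hl0 t0) (Submodule.add_mem _ hl1 t1)
      · simp only [Pi.sub_apply, Pi.add_apply]
        rw [← b1.2.2 p, hld0 p, hld1 p, hld0 (cOH p), hld1 (cOH p)]
        ring
      · simp only [Pi.sub_apply, Pi.add_apply]
        rw [b1.2.1 p]
        ring
      · exact Submodule.sub_mem _ hu (anti_comp hm c4 hu)
      · simp only [Pi.sub_apply, Pi.add_apply]
        rw [c3 p]
        ring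
      · rw [hQa, Prod.mk.injEq]
        constructor
        · funext p
          have x1 := hfl0 p
          have x2 := hfl0 (swH p)
          have x3 := hfl0 (sOH p)
          have x4 := hfl0 (swH (sOH p))
          simp only [Pi.smul_apply, smul_eq_mul] at x1 x2 x3 x4
          rw [(hφ.2 p).1] at x2
          rw [(hφ.2 p).2] at x3
          rw [(hφ.2 (sOH p)).1, (hφ.2 p).2] at x4
          rw [K1_apply]
          simp only [Pi.sub_apply, Pi.add_apply]
          rw [← c1.2.2 p]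
          linear_combination x1 + x2 - x3 - x4
        · funext p
          have x1 := hfl1 p
          have x2 := hfl1 (cOH p)
          have x3 := hfl1 (sOH p)
          have x4 := hfl1 (cOH (sOH p))
          simp only [Pi.smul_apply, smul_eq_mul] at x1 x2 x3 x4
          rw [(hψ.2 p).1] at x2
          rw [(hψ.2 p).2] at x3
          rw [(hψ.2 (sOH p)).1, (hψ.2 p).2] at x4
          rw [K2_apply]
          simp only [Pi.sub_apply, Pi.add_apply]
          rw [← c2.2.2 p]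
          linear_combination x1 + x2 - x3 - x4
  have hker : (Vf.prod Vl).prod Ve ⊓ LinearMap.ker Q = subOH m := by
    ext F
    constructor
    · rintro ⟨⟨⟨h1, h2⟩, h3⟩, h5⟩
      rw [SetLike.mem_coe, LinearMap.mem_ker, hQa, Prod.mk_eq_zero] at h5
      refine ⟨h1, h2, h3, fun p => ⟨?_, ?_⟩⟩
      · have := congrFun h5.1 p
        rw [K1_apply, Pi.zero_apply] at this
        exact this
      · have := congrFun h5.2 p
        rw [K2_apply, Pi.zero_apply] at this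
        exact this
    · rintro ⟨h1, h2, h3, h5⟩
      refine ⟨⟨⟨h1, h2⟩, h3⟩, ?_⟩
      rw [SetLike.mem_coe, LinearMap.mem_ker, hQa, Prod.mk_eq_zero]
      constructor
      · funext p
        rw [K1_apply, Pi.zero_apply]
        exact (h5 p).1
      · funext p
        rw [K2_apply, Pi.zero_apply]
        exact (h5 p).2
  have h6 := rn Q ((Vf.prod Vl).prod Ve)
  rw [hmap, hker, fr_prod, fr_prod, fr_prod] at h6
  zify at h6 eE ⊢
  push_cast at eF eL eB eB' eC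
  linarith

end Pool.Agent.Helper7.TH7
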