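import Pool.Agent.Helper14.TH7.StD

/-!
# Project TH, levels `2 * 7^n`, module Itr: iteration of the leading forms

Adapted from `Pool/Agent/Helper85/TL7/M_Itr.lean` and `Pool/Agent/Helper94/TH/M_Itr.lean`.
-/

set_option autoImplicit false

namespace Pool.Agent.Helper7.TH7

open Pool.Agent.Helper14.TH7
open Pool.Agent.Helper14.CV (Homog EqC act Tl)
open Pool.Agent.Helper93.TLH (HTy SymH)
open Pool.Agent.Helper84.S7

section

variable {r s : ℕ}

/-- the three functions -/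
private noncomputable def P (r s : ℕ) (G : ℤ → ℤ → ZMod 7) : Fin 3 → Fn7 (7 ^ r) (7 ^ s) :=
  fun f => pfH G f

private theorem lw_pow (hl : S7Low0) {O : Module.End (ZMod 7) (Fn7 (7 ^ r) (7 ^ s))} {k : ℤ}
    (hO : Lw O k) (n : ℕ) : Lw (O ^ n) (k * n) := by
  obtain ⟨hm, -, -, -, -, h1, -⟩ := hl r s
  induction n with
  | zero => simpa using h1
  | succ n ih =>
    rw [pow_succ]
    have := hm _ _ _ _ ih hO
    rwa [show k * n + k = k * (n + 1 : ℕ) by push_cast; ring] at this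

private theorem lw_mono (hl : S7Low0) (a b : ℕ) :
    Lw (dX ^ a * dY ^ b : Module.End (ZMod 7) (Fn7 (7 ^ r) (7 ^ s))) ((a : ℤ) + b) := by
  obtain ⟨hm, -, -, -, -, -, hx, hy, -⟩ := hl r s
  have h1 := hm _ _ _ _ (lw_pow hl hx a) (lw_pow hl hy b)
  rwa [one_mul, one_mul] at h1

private theorem lw_Q (hl : S7Low0) : Lw (QoH : Module.End (ZMod 7) (Fn7 (7 ^ r) (7 ^ s))) 2 := by
  have h := lw_mono (r := r) (s := s) hl 1 1
  norm_num at h
  exact h

private theorem lw_L (hl : S7Low0) : Lw (LoH : Module.End (ZMod 7) (Fn7 (7 ^ r) (7 ^ s))) 8 := by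
  have h1 := lw_mono (r := r) (s := s) hl 7 1
  have h2 := (hl r s).2.2.1 _ 3 _ (lw_mono (r := r) (s := s) hl 4 4)
  have h3 := lw_mono (r := r) (s := s) hl 1 7
  norm_num at h1 h2 h3
  exact (hl r s).2.1 _ _ _ ((hl r s).2.1 _ _ _ h1 h2) h3

private theorem lw_M (hl : S7Low0) (c f : ℕ) :
    Lw (MoH c f : Module.End (ZMod 7) (Fn7 (7 ^ r) (7 ^ s))) (nOH c : ℤ) := by
  unfold MoH
  refine Finset.sum_induction _ (fun O => Lw O (nOH c : ℤ)) ?_ ?_ ?_
  · exact fun O O' h h' => (hl r s).2.1 _ _ _ h h'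
  · exact fun d F _ => Submodule.zero_mem _
  · intro i hi
    rw [Finset.mem_range] at hi
    have h := (hl r s).2.2.1 _ ((qOH c f i : ℤ) : ZMod 7) _
      (lw_mono (r := r) (s := s) hl (nOH c - i) i)
    have e : ((nOH c - i : ℕ) : ℤ) + i = nOH c := by
      rw [← Nat.cast_add]
      congr 1
      omega
    rwa [e] at h

private theorem stepL (hl : S7Low0) {O : Module.End (ZMod 7) (Fn7 (7 ^ r) (7 ^ s))} {k e : ℤ}
    (hO : Lw O k) {F H F' : Fn7 (7 ^ r) (7 ^ s)} (hF : F ∈ Wd7 e) (hH : F - H ∈ Wd7 (e - 1))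
    (hF' : F' - O F ∈ Wd7 (e - k - 1)) : F' ∈ Wd7 (e - k) ∧ F' - O H ∈ Wd7 (e - k - 1) := by
  have hmono := (hl r s).2.2.2.2.1
  have h1 : O F ∈ Wd7 (e - k) := hO e F hF
  have h2 : O (F - H) ∈ Wd7 (e - k - 1) := by
    have := hO (e - 1) _ hH
    rwa [show e - 1 - k = e - k - 1 by ring] at this
  constructor
  · have h3 := Submodule.add_mem _ (hmono _ _ (by linarith) hF') h1
    rwa [sub_add_cancel] at h3
  · have h3 := Submodule.add_mem _ hF' h2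
    rwa [map_sub, sub_add_sub_cancel] at h3

/-- the state -/
private def St (r s : ℕ) (e : ℤ) (G : ℤ → ℤ → ZMod 7) (H : Fin 3 → Fn7 (7 ^ r) (7 ^ s)) : Prop :=
  SymH 7 r (s + 1) G ∧ ∀ f : Fin 3, P r s G f ∈ Wd7 e ∧ P r s G f - H f ∈ Wd7 (e - 1)

private theorem stU (hr : TRel) (hs : TStp) (hl : S7Low0) (hu : TLdU)
    {e : ℤ} {G : ℤ → ℤ → ZMod 7} {H : Fin 3 → Fn7 (7 ^ r) (7 ^ s)} (h : St r s e G H) :
    St r s (e - 2) (UoH (7 ^ r) G) (fun f => QoH (H f)) := by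
  obtain ⟨hG, hF⟩ := h
  obtain ⟨⟨sU, pU⟩, -⟩ := hs r s G hG
  have hR : RelH (P r s G) := hr (ZMod 7) _ r s G hG
  refine ⟨sU, fun f => ?_⟩
  have l1 := hu r s e (P r s G) hR (fun f => (hF f).1) f
  have e1 : P r s (UoH (7 ^ r) G) f = ∑ g : Fin 3, opL (ULH f g) (P r s G g) := pU f
  rw [← e1, show e - 3 = e - 2 - 1 by ring] at l1
  exact stepL hl (lw_Q hl) (hF f).1 (hF f).2 l1

private theorem stV (hr : TRel) (hs : TStp) (hl : S7Low0) (hv : TLdV)
    {e : ℤ} {G : ℤ → ℤ → ZMod 7} {H : Fin 3 → Fn7 (7 ^ r) (7 ^ s)} (h : St r s e G H) :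
    St r s (e - 8) (VoH (7 ^ r) G) (fun f => LoH (H f)) := by
  obtain ⟨hG, hF⟩ := h
  obtain ⟨-, ⟨sV, pV⟩, -⟩ := hs r s G hG
  have hR : RelH (P r s G) := hr (ZMod 7) _ r s G hG
  refine ⟨sV, fun f => ?_⟩
  have l1 := hv r s e (P r s G) hR (fun f => (hF f).1) f
  have e1 : P r s (VoH (7 ^ r) G) f = ∑ g : Fin 3, opL (VLH f g) (P r s G g) := pV f
  rw [← e1, show e - 9 = e - 8 - 1 by ring] at l1
  exact stepL hl (lw_L hl) (hF f).1 (hF f).2 l1

private theorem itU (hr : TRel) (hs : TStp) (hl : S7Low0) (hu : TLdU)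
    {e : ℤ} {G : ℤ → ℤ → ZMod 7} {H : Fin 3 → Fn7 (7 ^ r) (7 ^ s)} (h : St r s e G H) (i : ℕ) :
    St r s (e - 2 * i) ((UoH (7 ^ r))^[i] G)
      (fun f => (QoH ^ i : Module.End (ZMod 7) (Fn7 (7 ^ r) (7 ^ s))) (H f)) := by
  induction i with
  | zero => simpa using h
  | succ i ih =>
    have h4 := stU hr hs hl hu ih
    have hp : (QoH ^ (i + 1) : Module.End (ZMod 7) (Fn7 (7 ^ r) (7 ^ s))) = QoH * QoH ^ i :=
      pow_succ' _ _
    have e2 : e - 2 * ((i + 1 : ℕ) : ℤ) = e - 2 * i - 2 := by push_cast; ring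
    rw [Function.iterate_succ_apply', hp, e2]
    exact h4

private theorem itV (hr : TRel) (hs : TStp) (hl : S7Low0) (hv : TLdV)
    {e : ℤ} {G : ℤ → ℤ → ZMod 7} {H : Fin 3 → Fn7 (7 ^ r) (7 ^ s)} (h : St r s e G H) (j : ℕ) :
    St r s (e - 8 * j) ((VoH (7 ^ r))^[j] G)
      (fun f => (LoH ^ j : Module.End (ZMod 7) (Fn7 (7 ^ r) (7 ^ s))) (H f)) := by
  induction j with
  | zero => simpa using h
  | succ j ih =>
    have h4 := stV hr hs hl hv ih
    have hp : (LoH ^ (j + 1) : Module.End (ZMod 7) (Fn7 (7 ^ r) (7 ^ s))) = LoH * LoH ^ j :=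
      pow_succ' _ _
    have e2 : e - 8 * ((j + 1 : ℕ) : ℤ) = e - 8 * j - 8 := by push_cast; ring
    rw [Function.iterate_succ_apply', hp, e2]
    exact h4

private theorem kill (hl : S7Low0) {O : Module.End (ZMod 7) (Fn7 (7 ^ r) (7 ^ s))} {k e : ℤ}
    (hO : Lw O k) {F : Fn7 (7 ^ r) (7 ^ s)} (hF : F ∈ Wd7 e) (h : e < k) : O F = 0 := by
  have hmono := (hl r s).2.2.2.2.1
  have hz : ∀ F : Fn7 (7 ^ r) (7 ^ s), F ∈ Wd7 (-1) → F = 0 :=
    (hl r s).2.2.2.2.2.2.2.2.2.2.2.2.2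
  exact hz _ (hmono _ (-1) (by linarith [Int.add_one_le_of_lt h]) (hO e F hF))

private theorem dg_eq (c i j : ℕ) : dgH c i j = nOH c + 2 * i + 8 * j := by
  unfold dgH nOH
  omega

end

/-- **ITR.** -/
theorem hItr (hr : TRel) (hs : TStp) (hl : S7Low0) (hu : TLdU) (hv : TLdV) (ho : TOm) : TItr := by
  intro r s G d hG hF0 c i j hc
  have hmono := (hl r s).2.2.2.2.1
  have h0 : St r s (d : ℤ) G (P r s G) := by
    refine ⟨hG, fun f => ⟨hF0 f, ?_⟩⟩
    rw [sub_self]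
    exact Submodule.zero_mem _
  have hK := itU hr hs hl hu (itV hr hs hl hv h0 j) i
  set K : ℤ → ℤ → ZMod 7 := (UoH (7 ^ r))^[i] ((VoH (7 ^ r))^[j] G) with hKd
  obtain ⟨kG, kF⟩ := hK
  have kR : RelH (P r s K) := hr (ZMod 7) _ r s K kG
  obtain ⟨-, -, hO, hval⟩ := hs r s K kG
  have ev : evH (7 ^ r) G c i j = P r s (OoH c (7 ^ r) K) 0 0 0 :=
    (hval (OoH c (7 ^ r) K)).symm
  have hOc : P r s (OoH c (7 ^ r) K) 0 = ∑ f : Fin 3, opL (OLH (⟨c, by omega⟩ : Fin 6) f) (P r s K f) :=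
    hO ⟨c, by omega⟩
  have evM : (d : ℤ) - 8 * j - 2 * i ≤ nOH c →
      evH (7 ^ r) G c i j = ∑ f : Fin 3, (MoH c f.val (P r s K f)) 0 0 := by
    intro h4
    rw [ev, hOc]
    exact ho r s ⟨c, by omega⟩ (P r s K) kR (fun f => hmono _ _ h4 (kF f).1)
  have hdg := dg_eq c i j
  refine ⟨fun hlt => ?_, fun heq => ?_⟩
  · have hlt' : (d : ℤ) - 8 * j - 2 * i < nOH c := by
      rw [hdg] at hlt
      have : (d : ℤ) < nOH c + 2 * i + 8 * j := by exact_mod_cast hlt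
      linarith
    rw [evM hlt'.le]
    refine Finset.sum_eq_zero fun f _ => ?_
    rw [kill hl (lw_M hl c f.val) (kF f).1 hlt']
    rfl
  · have heq' : (d : ℤ) - 8 * j - 2 * i = nOH c := by
      rw [hdg] at heq
      have : (nOH c + 2 * i + 8 * j : ℤ) = d := by exact_mod_cast heq
      linarith
    rw [evM heq'.le]
    refine Finset.sum_congr rfl fun f _ => ?_
    have h1 := kill hl (lw_M hl c f.val) (kF f).2 (by linarith)
    rw [map_sub, sub_eq_zero] at h1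
    rw [h1]
    rfl

end Pool.Agent.Helper7.TH7
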